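import Pool.Agent.V8H27.GC.L

/-!
# Stellar subdivisions of homology spheres
-/

set_option autoImplicit false
set_option linter.unusedSectionVars false

noncomputable section

namespace Pool.Agent.V8H57.GC

open Pool.Agent.W907.SG Pool.Agent.V8H27.GC

variable {F : Type} [Field F] {V : Type} [Fintype V] [LinearOrder V]

/-! ### shift by a vertex -/

/-- from the faces with `m` to the faces without `m` -/
def dn (m : V) : (Finset V → F) →ₗ[F] (Finset V → F) where
  toFun c T := if m ∈ T then 0 else sg m T • c (insert m T)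
  map_add' c d := by
    funext T
    by_cases h : m ∈ T <;> simp [h]
  map_smul' a c := by
    funext T
    by_cases h : m ∈ T
    · simp [h]
    · simp only [if_neg h, Pi.smul_apply, RingHom.id_apply]
      exact smul_comm _ _ _

/-- from the faces without `m` to the faces with `m` -/
def upp (m : V) (d : Finset V → F) : Finset V → F :=
  fun T => if m ∈ T then sg m (T.erase m) • d (T.erase m) else 0

theorem dn_not {m : V} (c : Finset V → F) {T : Finset V} (h : m ∉ T) : dn m c T = sg m T • c (insert m T) := if_neg h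

theorem dn_mem {m : V} (c : Finset V → F) {T : Finset V} (h : m ∈ T) : dn m c T = 0 := if_pos h

theorem upp_insert {m : V} (d : Finset V → F) {T : Finset V} (h : m ∉ T) :
    upp m d (insert m T) = sg m T • d T := by
  unfold upp
  rw [if_pos (Finset.mem_insert_self _ _), Finset.erase_insert h]

theorem upp_not {m : V} (d : Finset V → F) {T : Finset V} (h : m ∉ T) : upp m d T = 0 := if_neg h

/-- the boundary and the shift -/
theorem bd_dn {m : V} (c : Finset V → F) {T : Finset V} (hT : m ∉ T) :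
    bd F (dn m c) T = - (sg m T • bd F c (insert m T)) := by
  rw [bd_apply, bd_apply, ← Finset.add_sum_erase _ _ (Finset.mem_compl.2 hT),
    dn_mem _ (Finset.mem_insert_self _ _), smul_zero, zero_add]
  have h2 : (insert m T)ᶜ = Tᶜ.erase m := by
    ext u
    simp
  rw [h2, Finset.smul_sum, ← Finset.sum_neg_distrib]
  refine Finset.sum_congr rfl fun v hv => ?_
  rw [Finset.mem_erase, Finset.mem_compl] at hv
  have h3 : m ∉ insert v T := by
    rw [Finset.mem_insert]
    rintro (h | h)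
    · exact hv.1 h.symm
    · exact hT h
  rw [dn_not _ h3, smul_smul, smul_smul, ← neg_smul, Finset.insert_comm m v T]
  congr 1
  have h4 := sg_swap m v T (fun h => hv.1 h.symm) hT hv.2
  calc sg v T * sg m (insert v T) = sg m (insert v T) * sg v T := mul_comm _ _
    _ = - (sg v (insert m T) * sg m T) := h4
    _ = - (sg m T * sg v (insert m T)) := by rw [mul_comm]

/-- shift by a vertex -/
theorem iso_shift {D : Set (Finset V)} (m : V) (hm : ∀ T ∈ D, m ∉ T) (i : ℕ) :
    Iso F {T | m ∈ T ∧ T.erase m ∈ D} (i + 1) D i := by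
  have hE : ∀ T, m ∉ T → (insert m T ∈ {T | m ∈ T ∧ T.erase m ∈ D} ↔ T ∈ D) := by
    intro T hT
    change (m ∈ insert m T ∧ (insert m T).erase m ∈ D) ↔ T ∈ D
    rw [Finset.erase_insert hT]
    exact ⟨fun h => h.2, fun h => ⟨Finset.mem_insert_self _ _, h⟩⟩
  have hdn : ∀ (j : ℕ) (c : Finset V → F), Sup {T | m ∈ T ∧ T.erase m ∈ D} (j + 1) c → Sup D j (dn m c) := by
    intro j c hc T hT
    by_cases h : m ∈ T
    · exact dn_mem _ h
    · rw [dn_not _ h, hc, smul_zero]
      rintro ⟨h1, h2⟩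
      rw [Finset.card_insert_of_notMem h] at h2
      exact hT ⟨(hE T h).1 h1, by omega⟩
  have hup : ∀ (j : ℕ) (d : Finset V → F), Sup D j d → Sup {T | m ∈ T ∧ T.erase m ∈ D} (j + 1) (upp m d) := by
    intro j d hd T hT
    by_cases h : m ∈ T
    · unfold upp
      rw [if_pos h, hd, smul_zero]
      rintro ⟨h1, h2⟩
      refine hT ⟨⟨h, h1⟩, ?_⟩
      rw [Finset.card_erase_of_mem h] at h2
      have := Finset.card_pos.2 ⟨m, h⟩
      omega
    · exact upp_not _ h
  have hdu : ∀ (j : ℕ) (d : Finset V → F), Sup D j d → dn m (upp m d) = d := by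
    intro j d hd
    funext T
    by_cases h : m ∈ T
    · rw [dn_mem _ h, hd]
      exact fun h2 => hm T h2.1 h
    · rw [dn_not _ h, upp_insert _ h, smul_smul, sg_mul_self, one_smul]
  -- the boundary of `upp m d` at `insert m T`
  have hbu : ∀ (j : ℕ) (d : Finset V → F), Sup D j d → ∀ T, m ∉ T →
      bd F (upp m d) (insert m T) = - (sg m T • bd F d T) := by
    intro j d hd T hT
    have h1 := bd_dn (upp m d) hT
    rw [hdu j d hd] at h1
    rw [h1, smul_neg, neg_neg, smul_smul, sg_mul_self, one_smul]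
  refine ⟨dn m, fun c hc => ⟨hdn i c hc.1, fun T hT => ?_⟩, fun c hc => ⟨?_, ?_⟩, fun c' hc' => ?_⟩
  · rw [bd_dn c (hm T hT), hc.2 _ ((hE T (hm T hT)).2 hT), smul_zero, neg_zero]
  · rintro ⟨d, hd1, hd2⟩
    refine ⟨- upp m d, (hup _ d hd1).neg, fun S hS => ?_⟩
    obtain ⟨T, hT, rfl⟩ : ∃ T, m ∉ T ∧ S = insert m T := ⟨S.erase m, Finset.notMem_erase m S,
      (Finset.insert_erase hS.1).symm⟩
    rw [map_neg, Pi.neg_apply, hbu _ d hd1 T hT, neg_neg, hd2 T ((hE T hT).1 hS), dn_not _ hT, smul_smul,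
      sg_mul_self, one_smul]
  · rintro ⟨e, he1, he2⟩
    refine ⟨- dn m e, (hdn _ e he1).neg, fun T hT => ?_⟩
    rw [map_neg, Pi.neg_apply, bd_dn e (hm T hT), neg_neg, he2 _ ((hE T (hm T hT)).2 hT), dn_not _ (hm T hT)]
  · refine ⟨upp m c', ⟨hup _ c' hc'.1, fun S hS => ?_⟩, ?_⟩
    · obtain ⟨T, hT, rfl⟩ : ∃ T, m ∉ T ∧ S = insert m T := ⟨S.erase m, Finset.notMem_erase m S,
        (Finset.insert_erase hS.1).symm⟩
      rw [hbu _ c' hc'.1 T hT, hc'.2 T ((hE T hT).1 hS), smul_zero, neg_zero]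
    · rw [hdu _ c' hc'.1, sub_self]
      exact ⟨0, fun _ _ => rfl, fun T _ => by rw [map_zero]⟩

/-! ### one face, and degree zero -/

theorem H0_of_card {D : Set (Finset V)} {i : ℕ} (h : ∀ T ∈ D, T.card ≠ i) : H0 F D i := by
  intro c hc
  refine ⟨0, fun _ _ => rfl, fun T hT => ?_⟩
  rw [map_zero, hc.1 T fun h2 => h T hT h2.2]
  rfl

theorem not_H1_of_card {D : Set (Finset V)} {i : ℕ} (h : ∀ T ∈ D, T.card ≠ i) : ¬ H1 F D i := by
  rintro ⟨z, hz, hn, -⟩
  exact hn (H0_of_card h z hz)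

theorem H1_single (W : Finset V) : H1 F ({W} : Set (Finset V)) W.card := by
  refine ⟨Pi.single W 1, ⟨fun T hT => ?_, fun T hT => ?_⟩, ?_, fun c hc => ⟨c W, 0, fun _ _ => rfl, fun T hT => ?_⟩⟩
  · rw [Pi.single_apply, if_neg]
    rintro rfl
    exact hT ⟨rfl, rfl⟩
  · refine bd_zero fun v hv => ?_
    rw [Pi.single_apply, if_neg]
    intro h
    rw [Set.mem_singleton_iff.1 hT] at h hv
    rw [← h] at hv
    exact hv (Finset.mem_insert_self _ _)
  · rintro ⟨e, he1, he2⟩
    have h1 := he2 W rfl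
    rw [Pi.single_eq_same, bd_zero] at h1
    · exact zero_ne_one h1
    · intro v hv
      refine he1 _ ?_
      rintro ⟨h2, -⟩
      rw [Set.mem_singleton_iff] at h2
      rw [← h2] at hv
      exact hv (Finset.mem_insert_self _ _)
  · rw [Set.mem_singleton_iff] at hT
    rw [hT, map_zero]
    simp

theorem start (W : Finset V) {n : ℕ} (hW : W.card = n + 1) : GS F n {T : Finset V | T ⊂ W} := by
  have key : ∀ σ : Finset V, σ ⊂ W → ∀ i, Iso F ({W} : Set (Finset V)) (i + 1) (up {T : Finset V | T ⊂ W} σ) i := by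
    intro σ hσ i
    obtain ⟨x, hxW, hxσ⟩ := Finset.exists_of_ssubset hσ
    have hD : Convex {T : Finset V | σ ⊆ T ∧ T ⊆ W} := fun S hS T hT R h1 h2 => ⟨hS.1.trans h1, h2.trans hT.2⟩
    have hs : up {T : Finset V | T ⊂ W} σ ⊆ {T : Finset V | σ ⊆ T ∧ T ⊆ W} := fun T hT => ⟨hT.2, hT.1.1⟩
    have hd : ∀ T ∈ up {T : Finset V | T ⊂ W} σ, ∀ S ∈ {T : Finset V | σ ⊆ T ∧ T ⊆ W}, S ⊆ T →
        S ∈ up {T : Finset V | T ⊂ W} σ := fun T hT S hS h => ⟨lt_of_le_of_lt h hT.1, hS.1⟩
    have hA : ∀ i, H0 F {T : Finset V | σ ⊆ T ∧ T ⊆ W} i := by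
      refine toggle x fun T hT => ?_
      constructor
      · rintro ⟨h1, h2⟩
        exact ⟨h1.trans (Finset.subset_insert _ _), Finset.insert_subset hxW h2⟩
      · rintro ⟨h1, h2⟩
        refine ⟨fun y hy => ?_, (Finset.subset_insert _ _).trans h2⟩
        rcases Finset.mem_insert.1 (h1 hy) with h3 | h3
        · rw [h3] at hy
          exact absurd hy hxσ
        · exact h3
    have h1 := iso_conn hD hs hd hA i
    have h2 : {T : Finset V | σ ⊆ T ∧ T ⊆ W} \ up {T : Finset V | T ⊂ W} σ = {W} := by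
      ext T
      constructor
      · rintro ⟨⟨h3, h4⟩, h5⟩
        by_contra h6
        exact h5 ⟨lt_of_le_of_ne h4 h6, h3⟩
      · intro h3
        rw [Set.mem_singleton_iff] at h3
        rw [h3]
        exact ⟨⟨hσ.1, le_refl _⟩, fun h4 => (show ¬ W ⊂ W from lt_irrefl W) h4.1⟩
    rwa [h2] at h1
  refine ⟨fun T hT S hS => lt_of_le_of_lt hS hT, fun σ hσ => ?_, fun σ hσ i hi => ?_⟩
  · rw [← (key σ hσ n).symm1, ← hW]
    exact H1_single W
  · rw [← (key σ hσ i).symm0]
    refine H0_of_card fun T hT => ?_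
    rw [Set.mem_singleton_iff.1 hT, hW]
    omega

/-! ### stellar subdivision -/

section star

omit [Fintype V] in
theorem star_dn {K : Set (Finset V)} (hK : ∀ T ∈ K, ∀ S, S ⊆ T → S ∈ K) (A : Finset V) (m : V) :
    ∀ T ∈ star A m K, ∀ S, S ⊆ T → S ∈ star A m K := by
  rintro T ⟨h1, h2⟩ S hS
  refine ⟨?_, fun h => h2 (h.trans hS)⟩
  rcases h1 with h1 | ⟨h1, h3⟩
  · exact Or.inl (hK T h1 S hS)
  · by_cases h4 : m ∈ S
    · exact Or.inr ⟨h4, hK _ h3 _ (Finset.union_subset_union (Finset.erase_subset_erase _ hS) le_rfl)⟩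
    · refine Or.inl (hK _ h3 _ ?_)
      intro x hx
      refine Finset.mem_union_left _ (Finset.mem_erase.2 ⟨?_, hS hx⟩)
      rintro rfl
      exact h4 hx

variable {K : Set (Finset V)} (hK : ∀ T ∈ K, ∀ S, S ⊆ T → S ∈ K) {A : Finset V} {m : V}
  (hA : A.Nonempty) (hAK : A ∈ K) (hm : ∀ T ∈ K, m ∉ T)

include hK hAK hm in
/-- the links of the old simplices -/
theorem star_old {u : Finset V} (hmu : m ∉ u) (hAu : ¬ A ⊆ u) (i : ℕ) :
    (H0 F (up K u) i ↔ H0 F (up (star A m K) u) i) ∧ (H1 F (up K u) i ↔ H1 F (up (star A m K) u) i) := by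
  obtain ⟨x, hxA, hxu⟩ := Finset.not_subset.1 hAu
  have hmA : m ∉ A := hm A hAK
  have hxm : x ≠ m := fun h => hmA (h ▸ hxA)
  set D : Set (Finset V) := {T | (T ∈ K ∨ (m ∈ T ∧ T.erase m ∪ A ∈ K)) ∧ u ⊆ T} with hDdef
  have hL : ∀ T, (T ∈ K ∨ (m ∈ T ∧ T.erase m ∪ A ∈ K)) → ∀ S, S ⊆ T → (S ∈ K ∨ (m ∈ S ∧ S.erase m ∪ A ∈ K)) := by
    rintro T h1 S hS
    rcases h1 with h1 | ⟨h1, h3⟩
    · exact Or.inl (hK T h1 S hS)
    · by_cases h4 : m ∈ S
      · exact Or.inr ⟨h4, hK _ h3 _ (Finset.union_subset_union (Finset.erase_subset_erase _ hS) le_rfl)⟩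
      · refine Or.inl (hK _ h3 _ ?_)
        intro y hy
        refine Finset.mem_union_left _ (Finset.mem_erase.2 ⟨?_, hS hy⟩)
        rintro rfl
        exact h4 hy
  have hD : Convex D := fun S hS T hT R h1 h2 => ⟨hL T hT.1 R h2, hS.2.trans h1⟩
  have hs1 : up K u ⊆ D := fun T hT => ⟨Or.inl hT.1, hT.2⟩
  have hd1 : ∀ T ∈ up K u, ∀ S ∈ D, S ⊆ T → S ∈ up K u := fun T hT S hS h => ⟨hK T hT.1 S h, hS.2⟩
  have hs2 : up (star A m K) u ⊆ D := fun T hT => ⟨hT.1.1, hT.2⟩
  have hd2 : ∀ T ∈ up (star A m K) u, ∀ S ∈ D, S ⊆ T → S ∈ up (star A m K) u :=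
    fun T hT S hS h => ⟨star_dn hK A m T hT.1 S h, hS.2⟩
  have hE1 : ∀ i, H0 F (D \ up K u) i := by
    refine toggle x fun T hT => ?_
    have e1 : (insert x T).erase m ∪ A = T.erase m ∪ A := by
      ext y
      simp only [Finset.mem_union, Finset.mem_erase, Finset.mem_insert]
      constructor
      · rintro (⟨h1, h2 | h2⟩ | h2)
        · rw [h2]
          exact Or.inr hxA
        · exact Or.inl ⟨h1, h2⟩
        · exact Or.inr h2
      · rintro (⟨h1, h2⟩ | h2)
        · exact Or.inl ⟨h1, Or.inr h2⟩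
        · exact Or.inr h2
    have e2 : m ∈ insert x T ↔ m ∈ T := by
      rw [Finset.mem_insert]
      exact ⟨fun h => h.resolve_left fun h2 => hxm h2.symm, Or.inr⟩
    have e3 : u ⊆ insert x T ↔ u ⊆ T := by
      constructor
      · intro h y hy
        rcases Finset.mem_insert.1 (h hy) with h3 | h3
        · rw [h3] at hy
          exact absurd hy hxu
        · exact h3
      · exact fun h => h.trans (Finset.subset_insert _ _)
    have e4 : ∀ S, S ∈ D \ up K u ↔ (m ∈ S ∧ S.erase m ∪ A ∈ K) ∧ u ⊆ S := by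
      intro S
      constructor
      · rintro ⟨⟨h1, h2⟩, h3⟩
        rcases h1 with h1 | h1
        · exact absurd ⟨h1, h2⟩ h3
        · exact ⟨h1, h2⟩
      · rintro ⟨h1, h2⟩
        exact ⟨⟨Or.inr h1, h2⟩, fun h3 => hm S h3.1 h1.1⟩
    rw [e4, e4, e1, e2, e3]
  have hE2 : ∀ i, H0 F (D \ up (star A m K) u) i := by
    refine toggle m fun T hT => ?_
    have e4 : ∀ S, S ∈ D \ up (star A m K) u ↔ (S ∈ K ∨ (m ∈ S ∧ S.erase m ∪ A ∈ K)) ∧ u ⊆ S ∧ A ⊆ S := by
      intro S
      constructor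
      · rintro ⟨⟨h1, h2⟩, h3⟩
        refine ⟨h1, h2, ?_⟩
        by_contra h4
        exact h3 ⟨⟨h1, h4⟩, h2⟩
      · rintro ⟨h1, h2, h3⟩
        exact ⟨⟨h1, h2⟩, fun h4 => h4.1.2 h3⟩
    have e3 : ∀ w : Finset V, m ∉ w → (w ⊆ insert m T ↔ w ⊆ T) := by
      intro w hw
      constructor
      · intro h y hy
        rcases Finset.mem_insert.1 (h hy) with h3 | h3
        · rw [h3] at hy
          exact absurd hy hw
        · exact h3
      · exact fun h => h.trans (Finset.subset_insert _ _)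
    rw [e4, e4, e3 u hmu, e3 A hmA, Finset.erase_insert hT]
    constructor
    · rintro ⟨h1, h2, h3⟩
      refine ⟨Or.inr ⟨Finset.mem_insert_self _ _, ?_⟩, h2, h3⟩
      rw [Finset.union_eq_left.2 h3]
      exact h1.resolve_right fun h => hT h.1
    · rintro ⟨h1, h2, h3⟩
      refine ⟨Or.inl ?_, h2, h3⟩
      rcases h1 with h1 | ⟨-, h1⟩
      · exact absurd (Finset.mem_insert_self _ _) (hm _ h1)
      · rwa [Finset.union_eq_left.2 h3] at h1
  have i1 := iso_sub hD hs1 hd1 hE1 i
  have i2 := iso_sub hD hs2 hd2 hE2 i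
  exact ⟨i1.symm0.trans i2.symm0.symm, i1.symm1.trans i2.symm1.symm⟩

include hK hA hAK hm in
/-- the links of the new simplices -/
theorem star_new {w : Finset V} (hmw : m ∉ w) (hAw : ¬ A ⊆ w) (i : ℕ) :
    (H0 F (up K (w ∪ A)) i ↔ H0 F (up (star A m K) (insert m w)) i) ∧
      (H1 F (up K (w ∪ A)) i ↔ H1 F (up (star A m K) (insert m w)) i) := by
  obtain ⟨x, hxA, hxw⟩ := Finset.not_subset.1 hAw
  have hmA : m ∉ A := hm A hAK
  cases i with
  | zero =>
    have h1 : ∀ T ∈ up K (w ∪ A), T.card ≠ 0 := by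
      rintro T ⟨-, hT⟩ h
      rw [Finset.card_eq_zero] at h
      rw [h] at hT
      exact absurd (hT (Finset.mem_union_right _ hxA)) (Finset.notMem_empty _)
    have h2 : ∀ T ∈ up (star A m K) (insert m w), T.card ≠ 0 := by
      rintro T ⟨-, hT⟩ h
      rw [Finset.card_eq_zero] at h
      rw [h] at hT
      exact absurd (hT (Finset.mem_insert_self _ _)) (Finset.notMem_empty _)
    exact ⟨iff_of_true (H0_of_card h1) (H0_of_card h2), iff_of_false (not_H1_of_card h1) (not_H1_of_card h2)⟩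
  | succ i =>
    set D : Set (Finset V) := {T | w ⊆ T ∧ T ∪ A ∈ K} with hDdef
    set D' : Set (Finset V) := {T | T ∈ D ∧ ¬ A ⊆ T} with hD'def
    have hD : Convex D := fun S hS T hT R h1 h2 => ⟨hS.1.trans h1,
      hK _ hT.2 _ (Finset.union_subset_union h2 le_rfl)⟩
    have hs : D' ⊆ D := fun T hT => hT.1
    have hd : ∀ T ∈ D', ∀ S ∈ D, S ⊆ T → S ∈ D' := fun T hT S hS h => ⟨hS, fun h2 => hT.2 (h2.trans h)⟩
    have hAc : ∀ i, H0 F D i := by
      refine toggle x fun T hT => ?_
      have e1 : insert x T ∪ A = T ∪ A := by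
        rw [Finset.insert_union, Finset.insert_eq_of_mem (Finset.mem_union_right _ hxA)]
      change w ⊆ T ∧ T ∪ A ∈ K ↔ w ⊆ insert x T ∧ insert x T ∪ A ∈ K
      rw [e1]
      have e3 : w ⊆ insert x T ↔ w ⊆ T := by
        constructor
        · intro h y hy
          rcases Finset.mem_insert.1 (h hy) with h3 | h3
          · rw [h3] at hy
            exact absurd hy hxw
          · exact h3
        · exact fun h => h.trans (Finset.subset_insert _ _)
      rw [e3]
    have j1 := iso_conn hD hs hd hAc i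
    have e1 : D \ D' = up K (w ∪ A) := by
      ext T
      constructor
      · rintro ⟨⟨h1, h2⟩, h3⟩
        have h4 : A ⊆ T := by
          by_contra h5
          exact h3 ⟨⟨h1, h2⟩, h5⟩
        rw [Finset.union_eq_left.2 h4] at h2
        exact ⟨h2, Finset.union_subset h1 h4⟩
      · rintro ⟨h1, h2⟩
        have h4 : A ⊆ T := (Finset.subset_union_right).trans h2
        exact ⟨⟨(Finset.subset_union_left).trans h2, by rwa [Finset.union_eq_left.2 h4]⟩, fun h => h.2 h4⟩
    rw [e1] at j1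
    have hm' : ∀ T ∈ D', m ∉ T := fun T hT h => hm _ hT.1.2 (Finset.mem_union_left _ h)
    have j2 := iso_shift (F := F) m hm' i
    have e2 : {T | m ∈ T ∧ T.erase m ∈ D'} = up (star A m K) (insert m w) := by
      ext T
      constructor
      · rintro ⟨h1, ⟨h2, h3⟩, h4⟩
        refine ⟨⟨Or.inr ⟨h1, h3⟩, fun h5 => h4 fun y hy => Finset.mem_erase.2 ⟨?_, h5 hy⟩⟩,
          Finset.insert_subset h1 (h2.trans (Finset.erase_subset _ _))⟩
        rintro rfl
        exact hmA hy
      · rintro ⟨⟨h1, h2⟩, h3⟩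
        have h4 : m ∈ T := h3 (Finset.mem_insert_self _ _)
        refine ⟨h4, ⟨fun y hy => Finset.mem_erase.2 ⟨?_, h3 (Finset.mem_insert_of_mem hy)⟩, ?_⟩,
          fun h5 => h2 (h5.trans (Finset.erase_subset _ _))⟩
        · rintro rfl
          exact hmw hy
        · rcases h1 with h1 | h1
          · exact absurd h4 (hm _ h1)
          · exact h1.2
    rw [e2] at j2
    exact ⟨j1.symm0.trans j2.symm0.symm, j1.symm1.trans j2.symm1.symm⟩

include hK hA hAK hm in
theorem star_iff {n : ℕ} : GS F n K ↔ GS F n (star A m K) := by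
  have hmA : m ∉ A := hm A hAK
  constructor
  · intro h
    have key : ∀ u ∈ star A m K, ∃ v ∈ K, ∀ i, (H0 F (up K v) i ↔ H0 F (up (star A m K) u) i) ∧
        (H1 F (up K v) i ↔ H1 F (up (star A m K) u) i) := by
      rintro u ⟨h1, h2⟩
      by_cases h3 : m ∈ u
      · have h4 : u.erase m ∪ A ∈ K := by
          rcases h1 with h1 | h1
          · exact absurd h3 (hm _ h1)
          · exact h1.2
        refine ⟨_, h4, fun i => ?_⟩
        have h5 := star_new (F := F) hK hA hAK hm (Finset.notMem_erase m u)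
          (fun h => h2 (h.trans (Finset.erase_subset _ _))) i
        rwa [Finset.insert_erase h3] at h5
      · exact ⟨u, h1.resolve_right fun h => h3 h.1, fun i => star_old hK hAK hm h3 h2 i⟩
    refine ⟨star_dn hK A m, fun u hu => ?_, fun u hu i hi => ?_⟩
    · obtain ⟨v, hv, hi⟩ := key u hu
      exact (hi n).2.1 (h.top v hv)
    · obtain ⟨v, hv, h2⟩ := key u hu
      exact (h2 i).1.1 (h.oth v hv i hi)
  · intro h
    have key : ∀ v ∈ K, ∃ u ∈ star A m K, ∀ i, (H0 F (up K v) i ↔ H0 F (up (star A m K) u) i) ∧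
        (H1 F (up K v) i ↔ H1 F (up (star A m K) u) i) := by
      intro v hv
      by_cases h3 : A ⊆ v
      · obtain ⟨x, hx⟩ := hA
        have h4 : v.erase x ∪ A = v := by
          ext y
          rw [Finset.mem_union, Finset.mem_erase]
          constructor
          · rintro (h5 | h5)
            · exact h5.2
            · exact h3 h5
          · intro h5
            by_cases h6 : y = x
            · rw [h6]
              exact Or.inr hx
            · exact Or.inl ⟨h6, h5⟩
        have h5 : m ∉ v.erase x := fun h => hm v hv (Finset.mem_of_mem_erase h)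
        have h6 : ¬ A ⊆ v.erase x := fun h => Finset.notMem_erase x v (h hx)
        refine ⟨insert m (v.erase x), ⟨Or.inr ⟨Finset.mem_insert_self _ _, ?_⟩, ?_⟩, fun i => ?_⟩
        · rw [Finset.erase_insert h5, h4]
          exact hv
        · intro h7
          refine h6 fun y hy => ?_
          rcases Finset.mem_insert.1 (h7 hy) with h8 | h8
          · rw [h8] at hy
            exact absurd hy hmA
          · exact h8
        · have h7 := star_new (F := F) hK ⟨x, hx⟩ hAK hm h5 h6 i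
          rwa [h4] at h7
      · exact ⟨v, ⟨Or.inl hv, h3⟩, fun i => star_old hK hAK hm (hm v hv) h3 i⟩
    refine ⟨hK, fun v hv => ?_, fun v hv i hi => ?_⟩
    · obtain ⟨u, hu, hi⟩ := key v hv
      exact (hi n).2.2 (h.top u hu)
    · obtain ⟨u, hu, h2⟩ := key v hv
      exact (h2 i).1.2 (h.oth u hu i hi)

end star

omit [Fintype V] in
theorem PLC.dn {n : ℕ} {K : Set (Finset V)} (h : PLC n K) : ∀ T ∈ K, ∀ S, S ⊆ T → S ∈ K := by
  induction h with
  | base W _ => exact fun T hT S hS => lt_of_le_of_lt hS hT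
  | star K A m _ _ _ _ ih => exact star_dn ih A m
  | unstar K A m h1 _ _ _ _ _ => exact h1

theorem PLC.gs {n : ℕ} {K : Set (Finset V)} (h : PLC n K) : GS F n K := by
  induction h with
  | base W hW => exact start W hW
  | star K A m h1 h2 h3 h4 ih => exact (star_iff (PLC.dn h1) h3 h2 h4).1 ih
  | unstar K A m h1 h2 h3 h4 _ ih => exact (star_iff h1 h3 h2 h4).2 ih

end Pool.Agent.V8H57.GC
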